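import Pool.Agent.Lib.MP_6cc228_al.Eqv2
import Pool.Agent.Lib.MP_6cc228_al.Final

/-!
For every finite group `A`, an infinite finitely generated residually finite split extension of a
`3`-group by `A` in which all elements outside the `3`-group have locally finite centralizers.
-/

namespace Pool.Agent.Results.MP_6cc228_al.EveryFiniteTop

theorem result (A : Type) [Group A] [Finite A] :
    ∃ (G : Type) (_ : Group G) (f : G →* A) (s : A →* G), (∀ a, f (s a) = a) ∧
      Group.FG G ∧ Infinite G ∧ Group.ResiduallyFinite G ∧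
      (∀ g : G, f g = 1 → ∃ n : ℕ, g ^ 3 ^ n = 1) ∧
      (∀ g : G, f g ≠ 1 → ∀ H : Subgroup G, H ≤ Subgroup.centralizer {g} → H.FG → Finite H) ∧
      (Nat.card A = 2 → ∃ t : G, orderOf t = 2 ∧ f t ≠ 1 ∧
        ∀ P : Sylow 2 (Subgroup.centralizer ({t} : Set G)),
          Nat.card (P : Subgroup (Subgroup.centralizer ({t} : Set G))) = 2) := by
  obtain ⟨G, _, f, s, h⟩ := Pool.Agent.Lib.MP_6cc228_al.nice_all A
  refine ⟨G, inferInstance, f, s, h.split, h.fg, h.inf, h.rf, h.tor, h.loc, fun h2 => ?_⟩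
  obtain ⟨a, ha, hu⟩ := (Nat.card_eq_two_iff' (1 : A)).1 h2
  have haa : a * a = 1 := by rw [← pow_two, ← h2, pow_card_eq_one']
  have ht : s a * s a = 1 := by rw [← map_mul, haa, map_one]
  have hft : f (s a) ≠ 1 := by rwa [h.split]
  have ho : orderOf (s a) = 2 :=
    orderOf_eq_prime (by rw [pow_two, ht]) fun e => hft (by rw [e, map_one])
  have hcop : ∀ g : G, f g = 1 → ∀ k, g ^ 2 ^ k = 1 → g = 1 := fun g hg k hk => by
    obtain ⟨n, hn⟩ := h.tor g hg
    exact orderOf_eq_one_iff.1 (Nat.eq_one_of_dvd_coprimes (Nat.Coprime.pow k n (by norm_num))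
      (orderOf_dvd_of_pow_eq_one hk) (orderOf_dvd_of_pow_eq_one hn))
  refine ⟨s a, ho, hft, Pool.Agent.Lib.MP_6cc228_al.sylow_card ho fun g hg k hk => ?_⟩
  by_cases hf : f g = 1
  · exact Or.inl (hcop g hf k hk)
  · right
    have hc : Commute g (s a) := (Subgroup.mem_centralizer_iff.1 hg _ rfl).symm
    have := hcop (g * s a) (by rw [map_mul, h.split, hu _ hf, haa]) (k + 1) (by
      rw [hc.mul_pow, pow_succ, pow_mul, hk, one_pow, one_mul, mul_comm, pow_mul, pow_two, ht,
        one_pow])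
    exact (eq_inv_of_mul_eq_one_left this).trans (inv_eq_of_mul_eq_one_left ht)

end Pool.Agent.Results.MP_6cc228_al.EveryFiniteTop
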